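import Mathlib
import Pool.Agent.H91.Edge.Haus

/-!
Limsup sets covered by few small balls: upper bound for the Hausdorff dimension.
-/

open Filter Topology Metric MeasureTheory
open scoped ENNReal NNReal

namespace Pool.ER

/-- limsup sets covered by few small balls have small dimension -/
lemma dimH_limsup_le (d : ℝ) (hd : 0 ≤ d) (S : ℕ → Finset ℝ) (r : ℕ → ℝ) (hr : ∀ k, 0 ≤ r k)
    (hr0 : Antitone r) (hr1 : Tendsto r atTop (𝓝 0)) (E : Set ℝ)
    (hE : ∀ m : ℕ, ∀ x ∈ E, ∃ k, ∃ s ∈ S (k + m), |x - s| ≤ r (k + m))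
    (hsum : ∀ δ : ℝ, d < δ → Summable fun k => ((S k).card : ℝ) * (2 * r k) ^ δ) :
    dimH E ≤ ENNReal.ofReal d := by
  have key : ∀ δ : ℝ≥0, d < δ → μH[(δ:ℝ)] E = 0 := by
    intro δ hδ
    have hδ' : (0:ℝ) < δ := lt_of_le_of_lt hd hδ
    have h1 := Measure.hausdorffMeasure_le_liminf_tsum (β := ℕ)
      (ι := fun m => Σ k : ℕ, {x // x ∈ S (k + m)}) (δ:ℝ) E (l := atTop)
      (fun m => ENNReal.ofReal (2 * r m))
      (by
        have : Tendsto (fun m => ENNReal.ofReal (2 * r m)) atTop (𝓝 (ENNReal.ofReal (2 * 0))) :=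
          ENNReal.tendsto_ofReal (hr1.const_mul 2)
        simpa using this)
      (fun m i => closedBall (i.2 : ℝ) (r (i.1 + m)))
      (Filter.Eventually.of_forall fun m i => by
        rw [Pool.Agent.H91.Edge.ediam_cb]
        apply ENNReal.ofReal_le_ofReal
        have := hr0 (show m ≤ i.1 + m by omega)
        linarith)
      (Filter.Eventually.of_forall fun m x hx => by
        obtain ⟨k, s, hs, hxs⟩ := hE m x hx
        rw [Set.mem_iUnion]
        refine ⟨⟨k, ⟨s, hs⟩⟩, ?_⟩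
        rw [mem_closedBall, Real.dist_eq]
        exact hxs)
    set F : ℕ → ℝ≥0∞ := fun k => ENNReal.ofReal (((S k).card : ℝ) * (2 * r k) ^ (δ:ℝ)) with hF
    have h2 : ∀ m, ∑' i : (Σ k : ℕ, {x // x ∈ S (k + m)}),
        (ediam (closedBall (i.2 : ℝ) (r (i.1 + m)))) ^ (δ:ℝ) = ∑' k, F (k + m) := by
      intro m
      rw [ENNReal.tsum_sigma']
      apply tsum_congr
      intro k
      rw [tsum_fintype]
      simp only [Pool.Agent.H91.Edge.ediam_cb, Finset.sum_const, Finset.card_univ,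
        Fintype.card_coe, nsmul_eq_mul]
      rw [hF]
      simp only
      rw [ENNReal.ofReal_mul (Nat.cast_nonneg _), ENNReal.ofReal_natCast,
        ENNReal.ofReal_rpow_of_nonneg (mul_nonneg (by norm_num) (hr _)) hδ'.le]
    have h3 : ∑' k, F k ≠ ∞ := by
      have h4 : Summable fun k => ((S k).card : ℝ) * (2 * r k) ^ (δ:ℝ) := hsum δ hδ
      have h5 : ∀ k, 0 ≤ ((S k).card : ℝ) * (2 * r k) ^ (δ:ℝ) := fun k =>
        mul_nonneg (Nat.cast_nonneg _) (Real.rpow_nonneg (mul_nonneg (by norm_num) (hr k)) _)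
      rw [hF, ← ENNReal.ofReal_tsum_of_nonneg h5 h4]
      exact ENNReal.ofReal_ne_top
    have h4 := ENNReal.tendsto_sum_nat_add F h3
    have h5 : liminf (fun m => ∑' i : (Σ k : ℕ, {x // x ∈ S (k + m)}),
        (ediam (closedBall (i.2 : ℝ) (r (i.1 + m)))) ^ (δ:ℝ)) atTop = 0 := by
      simp_rw [h2]
      exact h4.liminf_eq
    rw [h5] at h1
    exact le_antisymm h1 zero_le
  apply dimH_le
  intro d' hd'
  by_contra hcon
  push Not at hcon
  have h1 : d < d' := by
    have h2 : ENNReal.ofReal d < ENNReal.ofReal (d' : ℝ) := by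
      rwa [ENNReal.ofReal_coe_nnreal]
    exact (ENNReal.ofReal_lt_ofReal_iff_of_nonneg hd).mp h2
  rw [key d' h1] at hd'
  exact absurd hd' (by simp)

end Pool.ER
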