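import Mathlib

/-!
The dyadic square function and the deterministic form of the Rademacher-Menshov inequality.
-/

open Finset

namespace Pool.ER

/-- dyadic square function: the sum of `g` over all dyadic pieces of `[a, a + 2 ^ j)` -/
def Q (g : ℕ → ℕ → ℝ) : ℕ → ℕ → ℝ
  | 0, a => g a 1
  | (j+1), a => Q g j a + Q g j (a + 2^j) + g a (2^(j+1))

lemma Q_nonneg {g : ℕ → ℕ → ℝ} (hg : ∀ a l, 0 ≤ g a l) : ∀ j a, 0 ≤ Q g j a
  | 0, a => hg a 1
  | (j+1), a => by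
    unfold Q
    have h1 := Q_nonneg hg j a
    have h2 := Q_nonneg hg j (a + 2^j)
    have h3 := hg a (2^(j+1))
    linarith

lemma le_Q {g : ℕ → ℕ → ℝ} (hg : ∀ a l, 0 ≤ g a l) : ∀ j a, g a (2^j) ≤ Q g j a
  | 0, a => le_rfl
  | (j+1), a => by
    rw [Q]
    have h1 := Q_nonneg hg j a
    have h2 := Q_nonneg hg j (a + 2^j)
    linarith

lemma Q_mono {g g' : ℕ → ℕ → ℝ} (h : ∀ a l, g a l ≤ g' a l) : ∀ j a, Q g j a ≤ Q g' j a
  | 0, a => h a 1
  | (j+1), a => by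
    unfold Q
    have h1 := Q_mono h j a
    have h2 := Q_mono h j (a + 2^j)
    have h3 := h a (2^(j+1))
    linarith

lemma Q_sum {ι : Type*} (s : Finset ι) (g : ι → ℕ → ℕ → ℝ) :
    ∀ j a, ∑ i ∈ s, Q (g i) j a = Q (fun a l => ∑ i ∈ s, g i a l) j a
  | 0, a => by simp [Q]
  | (j+1), a => by
    simp only [Q]
    rw [sum_add_distrib, sum_add_distrib, Q_sum s g j a, Q_sum s g j (a + 2^j)]

lemma Q_le {g : ℕ → ℕ → ℝ} {A A' : ℕ} {C : ℝ} (hC : 0 ≤ C)
    (h : ∀ a l, A ≤ a → a + l ≤ A' → g a l ≤ C * l) :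
    ∀ j a, A ≤ a → a + 2^j ≤ A' → Q g j a ≤ (j+1) * C * 2^j
  | 0, a => fun ha hj => by
    have h1 := h a 1 ha (by simpa using hj)
    simp only [Q]
    push_cast at h1 ⊢
    linarith
  | (j+1), a => fun ha hj => by
    have e : 2^(j+1) = 2^j + 2^j := by ring
    have e0 : 1 ≤ 2^j := Nat.one_le_two_pow
    have h1 := Q_le hC h j a ha (by omega)
    have h2 := Q_le hC h j (a + 2^j) (le_trans ha (Nat.le_add_right _ _)) (by omega)
    have h3 := h a (2^(j+1)) ha hj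
    simp only [Q]
    push_cast at h1 h2 h3 ⊢
    have h4 : (2:ℝ)^(j+1) = 2 * 2^j := by ring
    rw [h4] at h3 ⊢
    nlinarith

/-- the Rademacher-Menshov inequality, deterministic form -/
lemma rm {E : Type*} [NormedAddCommGroup E] (c : ℕ → E) :
    ∀ (j a n : ℕ), n ≤ 2^j → ‖∑ i ∈ range n, c (a + i)‖^2 ≤
      (j+1) * Q (fun a l => ‖∑ i ∈ range l, c (a + i)‖^2) j a
  | 0, a, n => fun hn => by
    have : n = 0 ∨ n = 1 := by
      have : n ≤ 1 := by simpa using hn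
      omega
    rcases this with rfl | rfl
    · simp [Q]
    · simp [Q]
  | (j+1), a, n => fun hn => by
    set g : ℕ → ℕ → ℝ := fun a l => ‖∑ i ∈ range l, c (a + i)‖^2 with hg
    have hg0 : ∀ a l, 0 ≤ g a l := fun a l => by positivity
    have q1 := Q_nonneg hg0 j a
    have q2 := Q_nonneg hg0 j (a + 2^j)
    have q3 := hg0 a (2^(j+1))
    have hQ : Q g (j+1) a = Q g j a + Q g j (a + 2^j) + g a (2^(j+1)) := rfl
    have hj0 : (0:ℝ) ≤ j := Nat.cast_nonneg j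
    rw [hQ]
    push_cast
    by_cases hle : n ≤ 2^j
    · have h1 := rm c j a n hle
      rw [← hg] at h1
      nlinarith
    · push Not at hle
      obtain ⟨m, rfl⟩ := Nat.exists_eq_add_of_le hle.le
      have hm : m ≤ 2^j := by
        have : 2^(j+1) = 2^j + 2^j := by ring
        omega
      have h1 := rm c j (a + 2^j) m hm
      rw [← hg] at h1
      have h2 := le_Q hg0 j a
      rw [sum_range_add]
      set x : E := ∑ i ∈ range (2^j), c (a + i) with hx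
      have hy : ∑ i ∈ range m, c (a + (2^j + i)) = ∑ i ∈ range m, c (a + 2^j + i) := by
        apply sum_congr rfl
        intro i _
        rw [add_assoc]
      rw [hy]
      set y : E := ∑ i ∈ range m, c (a + 2^j + i) with hyd
      have h3 : ‖x‖^2 ≤ Q g j a := h2
      have h4 : ‖x + y‖ ≤ ‖x‖ + ‖y‖ := norm_add_le x y
      have h5 : ‖x + y‖^2 ≤ (‖x‖ + ‖y‖)^2 := pow_le_pow_left₀ (norm_nonneg _) h4 2
      have h6 : (‖x‖ + ‖y‖)^2 ≤ ((j:ℝ)+2) * ‖x‖^2 + ((j:ℝ)+2) / (j+1) * ‖y‖^2 := by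
        have h7 : 0 ≤ (Real.sqrt (j+1) * ‖x‖ - ‖y‖ / Real.sqrt (j+1))^2 := sq_nonneg _
        have hs : Real.sqrt ((j:ℝ)+1) ^ 2 = j + 1 := Real.sq_sqrt (by linarith)
        have hs0 : 0 < Real.sqrt ((j:ℝ)+1) := Real.sqrt_pos.mpr (by linarith)
        have h8 : (Real.sqrt ((j:ℝ)+1) * ‖x‖ - ‖y‖ / Real.sqrt (j+1))^2 =
            (j+1) * ‖x‖^2 - 2 * ‖x‖ * ‖y‖ + ‖y‖^2 / (j+1) := by
          rw [sub_sq, mul_pow, div_pow, hs]
          field_simp
        rw [h8] at h7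
        have h9 : ((j:ℝ)+2) / (j+1) * ‖y‖^2 = ‖y‖^2 + ‖y‖^2 / (j+1) := by
          field_simp
          ring
        rw [h9]
        nlinarith
      have h10 : ((j:ℝ)+2) / (j+1) * ‖y‖^2 ≤ (j+2) * Q g j (a + 2^j) := by
        have : ((j:ℝ)+2) / (j+1) * ‖y‖^2 ≤ ((j:ℝ)+2) / (j+1) * ((j+1) * Q g j (a + 2^j)) :=
          mul_le_mul_of_nonneg_left h1 (by positivity)
        refine this.trans (le_of_eq ?_)
        field_simp
      have h11 : ((j:ℝ)+2) * ‖x‖^2 ≤ (j+2) * Q g j a :=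
        mul_le_mul_of_nonneg_left h3 (by linarith)
      calc ‖x + y‖^2 ≤ _ := h5
        _ ≤ _ := h6
        _ ≤ (j+2) * Q g j a + (j+2) * Q g j (a + 2^j) := add_le_add h11 h10
        _ ≤ ((j:ℝ) + 1 + 1) * (Q g j a + Q g j (a + 2^j) + g a (2^(j+1))) := by nlinarith

end Pool.ER
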