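import Mathlib
import Pool.Agent.H48.ER.RM

/-!
Mean values of prime sums over fixed intervals.
-/

open Finset Complex MeasureTheory

namespace Pool.ER

/-- the primes with `⌊log p⌋ = i` -/
noncomputable def cell (i : ℕ) : Finset ℕ :=
  (range (⌈Real.exp (i+1)⌉₊ + 1)).filter (fun p => p.Prime ∧ ⌊Real.log p⌋₊ = i)

lemma mem_cell {i p : ℕ} : p ∈ cell i ↔ p.Prime ∧ ⌊Real.log p⌋₊ = i := by
  unfold cell
  rw [mem_filter, mem_range]
  constructor
  · rintro ⟨_, h⟩
    exact h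
  · rintro ⟨hp, hi⟩
    refine ⟨?_, hp, hi⟩
    have h1 : Real.log p < i + 1 := by
      rw [← hi]
      exact Nat.lt_floor_add_one _
    have h2 : (p:ℝ) < Real.exp (i+1) := by
      rwa [← Real.log_lt_iff_lt_exp (by exact_mod_cast hp.pos)]
    have h3 : (p:ℝ) < ⌈Real.exp (i+1)⌉₊ := h2.trans_le (Nat.le_ceil _)
    have h4 : p < ⌈Real.exp (i+1)⌉₊ := by exact_mod_cast h3
    omega

lemma cell_log {i p : ℕ} (h : p ∈ cell i) : (i:ℝ) ≤ Real.log p ∧ Real.log p < i + 1 := by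
  rw [mem_cell] at h
  obtain ⟨hp, hi⟩ := h
  have h0 : 0 ≤ Real.log p := Real.log_natCast_nonneg p
  constructor
  · rw [← hi]
    exact Nat.floor_le h0
  · rw [← hi]
    exact Nat.lt_floor_add_one _

lemma cell_inv {i : ℕ} (hi : 1 ≤ i) : ∑ p ∈ cell i, (p:ℝ)⁻¹ ≤ 6 / i := by
  have hi' : (1:ℝ) ≤ i := by exact_mod_cast hi
  have h1 : ∀ p ∈ cell i, (p:ℝ)⁻¹ ≤ Real.log p * (Real.exp (-i) / i) := by
    intro p hp
    obtain ⟨h1, h2⟩ := cell_log hp
    have hp0 : (0:ℝ) < p := by exact_mod_cast (mem_cell.mp hp).1.pos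
    have h3 : Real.exp i ≤ p := by
      rwa [← Real.le_log_iff_exp_le hp0]
    have h4 : (p:ℝ)⁻¹ ≤ Real.exp (-i) := by
      rw [Real.exp_neg]
      exact inv_anti₀ (Real.exp_pos _) h3
    calc (p:ℝ)⁻¹ ≤ Real.exp (-i) := h4
      _ = i * (Real.exp (-i) / i) := by field_simp
      _ ≤ Real.log p * (Real.exp (-i) / i) := by gcongr
  have h2 : ∑ p ∈ cell i, Real.log p ≤ Chebyshev.theta (Real.exp (i+1)) := by
    rw [Chebyshev.theta_eq_sum_Icc]
    apply Finset.sum_le_sum_of_subset_of_nonneg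
    · intro p hp
      obtain ⟨h1, h2⟩ := cell_log hp
      have hpp := (mem_cell.mp hp).1
      have hp0 : (0:ℝ) < p := by exact_mod_cast hpp.pos
      rw [mem_filter, mem_Icc]
      refine ⟨⟨Nat.zero_le _, ?_⟩, hpp⟩
      apply Nat.le_floor
      have h3 : (p:ℝ) < Real.exp (i+1) := by
        rwa [← Real.log_lt_iff_lt_exp hp0]
      exact h3.le
    · intro p _ _
      exact Real.log_natCast_nonneg p
  have h3 := Chebyshev.theta_le_log4_mul_x (Real.exp_pos (i+1:ℝ)).le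
  have h4 : Real.log 4 * Real.exp (i+1) ≤ 6 * Real.exp i := by
    have h5 : Real.log 4 ≤ 2 * 0.6931471808 := by
      have : (4:ℝ) = 2^2 := by norm_num
      rw [this, Real.log_pow]
      push_cast
      have := Real.log_two_lt_d9
      linarith
    have h6 := Real.exp_one_lt_d9
    rw [Real.exp_add]
    have h7 : 0 < Real.exp i := Real.exp_pos _
    have h8 : 0 < Real.exp 1 := Real.exp_pos _
    have h9 : 0 < Real.log 4 := Real.log_pos (by norm_num)
    have h10 : Real.log 4 * Real.exp 1 ≤ 6 := by nlinarith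
    nlinarith
  calc ∑ p ∈ cell i, (p:ℝ)⁻¹ ≤ ∑ p ∈ cell i, Real.log p * (Real.exp (-i) / i) := sum_le_sum h1
    _ = (∑ p ∈ cell i, Real.log p) * (Real.exp (-i) / i) := by rw [sum_mul]
    _ ≤ (6 * Real.exp i) * (Real.exp (-i) / i) := by
        apply mul_le_mul_of_nonneg_right _ (by positivity)
        linarith
    _ = 6 / i := by
        rw [Real.exp_neg]
        field_simp

/-- the basic oscillating factor -/
noncomputable def ee (u t : ℝ) : ℂ := Complex.exp (((-(t * u) : ℝ) : ℂ) * I)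

lemma norm_ee (u t : ℝ) : ‖ee u t‖ = 1 := by
  unfold ee
  exact Complex.norm_exp_ofReal_mul_I _

lemma continuous_ee (u : ℝ) : Continuous (ee u) := by
  unfold ee
  fun_prop

lemma ee_conj (u v t : ℝ) : ee u t * (starRingEnd ℂ) (ee v t) = ee (u - v) t := by
  unfold ee
  rw [← Complex.exp_conj, ← Complex.exp_add]
  congr 1
  simp only [map_mul, Complex.conj_ofReal, Complex.conj_I]
  push_cast
  ring

lemma integral_ee_le (T : ℝ) (hT : 0 ≤ T) (u : ℝ) : ‖∫ t in (-T)..T, ee u t‖ ≤ 2 * T := by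
  have h := intervalIntegral.norm_integral_le_of_norm_le_const (a := -T) (b := T) (f := ee u) (C := 1)
    (fun t _ => (norm_ee u t).le)
  have h2 : |T - -T| = 2 * T := by
    rw [abs_of_nonneg (by linarith)]
    ring
  rw [h2] at h
  linarith

lemma integral_ee_le' (T : ℝ) (u : ℝ) (hu : u ≠ 0) : ‖∫ t in (-T)..T, ee u t‖ ≤ 2 / |u| := by
  have hc : ((-u : ℝ) : ℂ) * I ≠ 0 := by
    simp [hu]
  have h1 : (∫ t in (-T)..T, ee u t) = ∫ t in (-T)..T, Complex.exp ((((-u : ℝ) : ℂ) * I) * t) := by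
    apply intervalIntegral.integral_congr
    intro t _
    simp only [ee]
    congr 1
    push_cast
    ring
  rw [h1, integral_exp_mul_complex hc, norm_div]
  have h2 : ‖((-u : ℝ) : ℂ) * I‖ = |u| := by
    rw [norm_mul, Complex.norm_I, mul_one, Complex.norm_real, Real.norm_eq_abs, abs_neg]
  rw [h2]
  apply div_le_div_of_nonneg_right _ (abs_nonneg u)
  have h3 : ∀ t : ℝ, ‖Complex.exp ((((-u : ℝ) : ℂ) * I) * t)‖ = 1 := by
    intro t
    have : ((((-u : ℝ) : ℂ) * I) * t) = ((-u * t : ℝ) : ℂ) * I := by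
      push_cast
      ring
    rw [this]
    exact Complex.norm_exp_ofReal_mul_I _
  calc _ ≤ ‖Complex.exp ((((-u : ℝ) : ℂ) * I) * (T:ℝ))‖ + ‖Complex.exp ((((-u : ℝ) : ℂ) * I) * ((-T : ℝ) : ℂ))‖ :=
        norm_sub_le _ _
    _ = 2 := by rw [h3, h3]; norm_num

/-- the kernel bound in terms of the distance of the cells -/
lemma integral_ee_cell (T : ℝ) (hT : 0 ≤ T) {i i' : ℕ} {u v : ℝ} (hu1 : (i:ℝ) ≤ u) (hu2 : u < i + 1)
    (hv1 : (i':ℝ) ≤ v) (hv2 : v < i' + 1) :
    ‖∫ t in (-T)..T, ee (u - v) t‖ ≤ (6 + 4 * T) * (|(i:ℝ) - i'| + 1)⁻¹ := by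
  set d : ℝ := |(i:ℝ) - i'| with hd
  have hd0 : 0 ≤ d := abs_nonneg _
  rw [← div_eq_mul_inv, le_div_iff₀ (by linarith)]
  by_cases h : d ≤ 1
  · have h1 := integral_ee_le T hT (u - v)
    nlinarith
  · push Not at h
    have hd2 : 2 ≤ d := by
      have h3 : ((|(i:ℤ) - (i':ℤ)| : ℤ) : ℝ) = d := by
        rw [hd]
        push_cast
        rfl
      have h4 : (1:ℤ) < |(i:ℤ) - (i':ℤ)| := by
        have : ((1:ℤ):ℝ) < ((|(i:ℤ) - (i':ℤ)| : ℤ) : ℝ) := by
          rw [h3]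
          exact_mod_cast h
        exact_mod_cast this
      have h5 : (2:ℤ) ≤ |(i:ℤ) - (i':ℤ)| := by omega
      have h6 : ((2:ℤ):ℝ) ≤ ((|(i:ℤ) - (i':ℤ)| : ℤ) : ℝ) := by exact_mod_cast h5
      rw [h3] at h6
      exact_mod_cast h6
    have h3 : d - 1 ≤ |u - v| := by
      rw [hd]
      have h4 : |((i:ℝ) - i') - (u - v)| ≤ 1 := by
        rw [abs_le]
        constructor <;> linarith
      have h5 : |(i:ℝ) - i'| ≤ |((i:ℝ) - i') - (u - v)| + |u - v| := by
        have := abs_add_le (((i:ℝ) - i') - (u - v)) (u - v)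
        simpa using this
      linarith
    have huv : u - v ≠ 0 := by
      intro h0
      rw [h0, abs_zero] at h3
      linarith
    have h4 := integral_ee_le' T (u - v) huv
    have h5 : 2 / |u - v| ≤ 2 / (d - 1) := by
      apply div_le_div_of_nonneg_left (by norm_num) (by linarith) h3
    have h6 : 2 / (d - 1) * (d + 1) ≤ 6 := by
      rw [div_mul_eq_mul_div, div_le_iff₀ (by linarith)]
      linarith
    have h7 : ‖∫ t in (-T)..T, ee (u - v) t‖ * (d + 1) ≤ 2 / (d - 1) * (d + 1) := by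
      apply mul_le_mul_of_nonneg_right _ (by linarith)
      exact h4.trans h5
    linarith

end Pool.ER
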