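import Mathlib
import Pool.Agent.H48.ER.MV

/-!
Mean values of prime sums over fixed intervals, part 2.
-/

open Finset Complex MeasureTheory

namespace Pool.ER

/-- the sum over one cell -/
noncomputable def cs (α : ℕ → ℂ) (i : ℕ) (t : ℝ) : ℂ :=
  ∑ p ∈ cell i, α p * (p:ℂ)⁻¹ * ee (Real.log p) t

/-- the sum over `l` consecutive cells -/
noncomputable def SS (α : ℕ → ℂ) (a l : ℕ) (t : ℝ) : ℂ := ∑ i ∈ range l, cs α (a + i) t

lemma continuous_cs (α : ℕ → ℂ) (i : ℕ) : Continuous (cs α i) := by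
  unfold cs
  apply continuous_finsetSum
  intro p _
  exact continuous_const.mul (continuous_ee _)

lemma continuous_SS (α : ℕ → ℂ) (a l : ℕ) : Continuous (SS α a l) := by
  unfold SS
  apply continuous_finsetSum
  intro i _
  exact continuous_cs α _

lemma int_pair (α : ℕ → ℂ) {T : ℝ} (hT : 0 ≤ T) (i i' : ℕ) :
    ‖∫ t in (-T)..T, cs α i t * (starRingEnd ℂ) (cs α i' t)‖ ≤
      (∑ p ∈ cell i, ‖α p‖ * (p:ℝ)⁻¹) * (∑ q ∈ cell i', ‖α q‖ * (q:ℝ)⁻¹) *
        ((6 + 4 * T) * (|(i:ℝ) - i'| + 1)⁻¹) := by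
  have h1 : ∀ t : ℝ, cs α i t * (starRingEnd ℂ) (cs α i' t) =
      ∑ p ∈ cell i, ∑ q ∈ cell i', (α p * (p:ℂ)⁻¹ * (starRingEnd ℂ) (α q * (q:ℂ)⁻¹)) *
        ee (Real.log p - Real.log q) t := by
    intro t
    unfold cs
    rw [map_sum, sum_mul_sum]
    apply sum_congr rfl
    intro p _
    apply sum_congr rfl
    intro q _
    rw [map_mul _ _ (ee _ t), ← ee_conj]
    ring
  simp_rw [h1]
  rw [intervalIntegral.integral_finsetSum]
  · have h2 : ∀ p ∈ cell i, ‖∫ t in (-T)..T, ∑ q ∈ cell i',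
        (α p * (p:ℂ)⁻¹ * (starRingEnd ℂ) (α q * (q:ℂ)⁻¹)) * ee (Real.log p - Real.log q) t‖ ≤
        (‖α p‖ * (p:ℝ)⁻¹) * ((∑ q ∈ cell i', ‖α q‖ * (q:ℝ)⁻¹) *
        ((6 + 4 * T) * (|(i:ℝ) - i'| + 1)⁻¹)) := by
      intro p hp
      rw [intervalIntegral.integral_finsetSum]
      · rw [sum_mul, mul_sum]
        apply norm_sum_le_of_le
        intro q hq
        rw [intervalIntegral.integral_const_mul, norm_mul, norm_mul, norm_mul, RCLike.norm_conj,
          norm_mul]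
        obtain ⟨a1, a2⟩ := cell_log hp
        obtain ⟨b1, b2⟩ := cell_log hq
        have h3 := integral_ee_cell T hT a1 a2 b1 b2
        have h4 : ‖((p:ℂ))⁻¹‖ = (p:ℝ)⁻¹ := by rw [norm_inv, Complex.norm_natCast]
        have h5 : ‖((q:ℂ))⁻¹‖ = (q:ℝ)⁻¹ := by rw [norm_inv, Complex.norm_natCast]
        rw [h4, h5]
        calc ‖α p‖ * (p:ℝ)⁻¹ * (‖α q‖ * (q:ℝ)⁻¹) * ‖∫ t in (-T)..T, ee (Real.log p - Real.log q) t‖
            ≤ ‖α p‖ * (p:ℝ)⁻¹ * (‖α q‖ * (q:ℝ)⁻¹) * ((6 + 4 * T) * (|(i:ℝ) - i'| + 1)⁻¹) := by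
              gcongr
          _ = _ := by ring
      · intro q _
        exact (continuous_const.mul (continuous_ee _)).intervalIntegrable _ _
    calc _ ≤ ∑ p ∈ cell i, (‖α p‖ * (p:ℝ)⁻¹) * ((∑ q ∈ cell i', ‖α q‖ * (q:ℝ)⁻¹) *
        ((6 + 4 * T) * (|(i:ℝ) - i'| + 1)⁻¹)) := norm_sum_le_of_le _ h2
      _ = _ := by
        rw [← sum_mul]
        ring
  · intro p _
    apply Continuous.intervalIntegrable
    apply continuous_finsetSum
    intro q _
    exact continuous_const.mul (continuous_ee _)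

/-- harmonic double sums -/
lemma harm2 (l : ℕ) : ∑ i ∈ range l, ∑ i' ∈ range l, (|(i:ℝ) - i'| + 1)⁻¹ ≤
    2 * l * ∑ d ∈ range l, ((d:ℝ) + 1)⁻¹ := by
  induction l with
  | zero => simp
  | succ l ih =>
    set h : ℝ := ∑ d ∈ range l, ((d:ℝ) + 1)⁻¹ with hh
    have hsucc : ∑ d ∈ range (l+1), ((d:ℝ) + 1)⁻¹ = h + ((l:ℝ)+1)⁻¹ := sum_range_succ _ _
    rw [hsucc]
    have e1 : ∑ i ∈ range (l+1), ∑ i' ∈ range (l+1), (|(i:ℝ) - i'| + 1)⁻¹ =
        ∑ i ∈ range l, ∑ i' ∈ range l, (|(i:ℝ) - i'| + 1)⁻¹ + ∑ i ∈ range l, (|(i:ℝ) - l| + 1)⁻¹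
          + (∑ i ∈ range l, (|(l:ℝ) - i| + 1)⁻¹ + 1) := by
      rw [sum_range_succ]
      simp_rw [sum_range_succ _ l]
      rw [sum_add_distrib]
      simp
    have e2 : ∑ i ∈ range l, (|(l:ℝ) - i| + 1)⁻¹ = ∑ d ∈ range l, ((d:ℝ) + 2)⁻¹ := by
      rw [← sum_range_reflect]
      apply sum_congr rfl
      intro i hi
      rw [mem_range] at hi
      have : ((l - 1 - i : ℕ) : ℝ) = l - 1 - i := by
        have h1 : l - 1 - i = l - (1 + i) := by omega
        rw [h1, Nat.cast_sub (by omega)]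
        push_cast
        ring
      rw [this, abs_of_nonneg (by
        have : (0:ℝ) ≤ i := Nat.cast_nonneg i
        linarith)]
      congr 1
      ring
    have e3 : ∑ i ∈ range l, (|(i:ℝ) - l| + 1)⁻¹ = ∑ i ∈ range l, (|(l:ℝ) - i| + 1)⁻¹ := by
      apply sum_congr rfl
      intro i _
      rw [abs_sub_comm]
    have e4 : ∑ d ∈ range l, ((d:ℝ) + 2)⁻¹ + 1 = h + ((l:ℝ)+1)⁻¹ := by
      have h1 := sum_range_succ' (fun d : ℕ => ((d:ℝ) + 1)⁻¹) l
      rw [hsucc] at h1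
      rw [h1]
      simp only [Nat.cast_zero, zero_add, inv_one]
      congr 1
      apply sum_congr rfl
      intro d _
      push_cast
      congr 1
      ring
    rw [e1, e3, e2]
    have h0 : 0 ≤ h := sum_nonneg fun d _ => by positivity
    have hl0 : (0:ℝ) ≤ l := Nat.cast_nonneg l
    have hl1 : 0 < ((l:ℝ)+1)⁻¹ := by positivity
    push_cast
    nlinarith

lemma harm_le (l : ℕ) (j : ℕ) (hl : l ≤ 2^j) : ∑ d ∈ range l, ((d:ℝ) + 1)⁻¹ ≤ j + 1 := by
  have h1 : ∑ d ∈ range l, ((d:ℝ) + 1)⁻¹ ≤ ∑ d ∈ range (2^j), ((d:ℝ) + 1)⁻¹ := by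
    apply sum_le_sum_of_subset_of_nonneg
    · exact range_subset_range.mpr hl
    · intro d _ _
      positivity
  refine h1.trans ?_
  clear h1 hl
  induction j with
  | zero => simp
  | succ j ih =>
    have e : 2^(j+1) = 2^j + 2^j := by ring
    rw [e, sum_range_add]
    have h2 : ∑ x ∈ range (2^j), (((2^j + x : ℕ) : ℝ) + 1)⁻¹ ≤ 1 := by
      calc ∑ x ∈ range (2^j), (((2^j + x : ℕ) : ℝ) + 1)⁻¹ ≤ ∑ x ∈ range (2^j), ((2:ℝ)^j)⁻¹ := by
            apply sum_le_sum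
            intro x _
            apply inv_anti₀ (by positivity)
            push_cast
            have : (0:ℝ) ≤ x := Nat.cast_nonneg x
            linarith
        _ = 1 := by
            rw [sum_const, card_range, nsmul_eq_mul]
            push_cast
            field_simp
    push_cast at h2 ih ⊢
    linarith

/-- the mean value estimate -/
theorem mean_value (α : ℕ → ℂ) {B T : ℝ} (hT : 0 ≤ T) {a l M j : ℕ}
    (hM : 1 ≤ M) (ha : M ≤ a) (hl : l ≤ 2^j)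
    (hB : ∀ i, i < l → ∀ p ∈ cell (a + i), ‖α p‖ ≤ B) (hB0 : 0 ≤ B) :
    ∫ t in (-T)..T, ‖SS α a l t‖^2 ≤ 72 * (6 + 4 * T) * (B / M)^2 * (j + 1) * l := by
  have hM' : (1:ℝ) ≤ M := by exact_mod_cast hM
  have h1 : ((∫ t in (-T)..T, ‖SS α a l t‖^2 : ℝ) : ℂ) =
      ∑ i ∈ range l, ∑ i' ∈ range l, ∫ t in (-T)..T, cs α (a + i) t * (starRingEnd ℂ) (cs α (a + i') t) := by
    rw [← intervalIntegral.integral_ofReal]
    have h2 : ∀ t : ℝ, ((‖SS α a l t‖^2 : ℝ) : ℂ) =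
        ∑ i ∈ range l, ∑ i' ∈ range l, cs α (a + i) t * (starRingEnd ℂ) (cs α (a + i') t) := by
      intro t
      rw [Complex.ofReal_pow, ← Complex.mul_conj']
      unfold SS
      rw [map_sum, sum_mul_sum]
    simp_rw [h2]
    rw [intervalIntegral.integral_finsetSum]
    · apply sum_congr rfl
      intro i _
      rw [intervalIntegral.integral_finsetSum]
      intro i' _
      exact ((continuous_cs α _).mul (Complex.continuous_conj.comp (continuous_cs α _))).intervalIntegrable _ _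
    · intro i _
      apply Continuous.intervalIntegrable
      apply continuous_finsetSum
      intro i' _
      exact (continuous_cs α _).mul (Complex.continuous_conj.comp (continuous_cs α _))
  have hw : ∀ i ∈ range l, ∑ p ∈ cell (a + i), ‖α p‖ * (p:ℝ)⁻¹ ≤ 6 * (B / M) := by
    intro i hi
    rw [mem_range] at hi
    have hai : M ≤ a + i := by omega
    have hai' : (M:ℝ) ≤ ((a + i : ℕ) : ℝ) := by exact_mod_cast hai
    calc ∑ p ∈ cell (a + i), ‖α p‖ * (p:ℝ)⁻¹ ≤ ∑ p ∈ cell (a + i), B * (p:ℝ)⁻¹ := by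
          apply sum_le_sum
          intro p hp
          exact mul_le_mul_of_nonneg_right (hB i hi p hp) (by positivity)
      _ = B * ∑ p ∈ cell (a + i), (p:ℝ)⁻¹ := by rw [mul_sum]
      _ ≤ B * (6 / ((a + i : ℕ) : ℝ)) := by
          apply mul_le_mul_of_nonneg_left (cell_inv (by omega)) hB0
      _ ≤ B * (6 / M) := by
          apply mul_le_mul_of_nonneg_left _ hB0
          apply div_le_div_of_nonneg_left (by norm_num) (by linarith) hai'
      _ = 6 * (B / M) := by ring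
  have h3 : ‖((∫ t in (-T)..T, ‖SS α a l t‖^2 : ℝ) : ℂ)‖ ≤
      ∑ i ∈ range l, ∑ i' ∈ range l, (6 * (B / M))^2 * ((6 + 4 * T) * (|(i:ℝ) - i'| + 1)⁻¹) := by
    rw [h1]
    apply norm_sum_le_of_le
    intro i hi
    apply norm_sum_le_of_le
    intro i' hi'
    refine (int_pair α hT (a + i) (a + i')).trans ?_
    have e : |((a + i : ℕ) : ℝ) - ((a + i' : ℕ) : ℝ)| = |(i:ℝ) - i'| := by
      push_cast
      congr 1
      ring
    rw [e]
    apply mul_le_mul_of_nonneg_right _ (by positivity)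
    rw [sq]
    apply mul_le_mul (hw i hi) (hw i' hi') (sum_nonneg fun q _ => by positivity) (by positivity)
  have h4 : ∫ t in (-T)..T, ‖SS α a l t‖^2 ≤ ‖((∫ t in (-T)..T, ‖SS α a l t‖^2 : ℝ) : ℂ)‖ := by
    rw [Complex.norm_real]
    exact le_abs_self _
  have h5 : ∑ i ∈ range l, ∑ i' ∈ range l, (6 * (B / M))^2 * ((6 + 4 * T) * (|(i:ℝ) - i'| + 1)⁻¹) =
      (6 * (B / M))^2 * (6 + 4 * T) * ∑ i ∈ range l, ∑ i' ∈ range l, (|(i:ℝ) - i'| + 1)⁻¹ := by
    rw [mul_sum]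
    apply sum_congr rfl
    intro i _
    rw [mul_sum]
    apply sum_congr rfl
    intro i' _
    ring
  rw [h5] at h3
  have h6 := harm2 l
  have h7 := harm_le l j hl
  have h8 : ∑ i ∈ range l, ∑ i' ∈ range l, (|(i:ℝ) - i'| + 1)⁻¹ ≤ 2 * l * (j + 1) :=
    h6.trans (mul_le_mul_of_nonneg_left h7 (by positivity))
  calc ∫ t in (-T)..T, ‖SS α a l t‖^2 ≤ (6 * (B / M))^2 * (6 + 4 * T) *
        ∑ i ∈ range l, ∑ i' ∈ range l, (|(i:ℝ) - i'| + 1)⁻¹ := h4.trans h3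
    _ ≤ (6 * (B / M))^2 * (6 + 4 * T) * (2 * l * (j + 1)) :=
        mul_le_mul_of_nonneg_left h8 (by positivity)
    _ = 72 * (6 + 4 * T) * (B / M)^2 * (j + 1) * l := by ring

end Pool.ER
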