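import Mathlib
import Pool.Agent.H48.ER.MV2

/-!
Sobolev inequality on small intervals and the covering of the set of large values.
-/

open Finset Complex MeasureTheory

namespace Pool.ER

lemma sq_int_le {φ : ℝ → ℝ} (hφ : Continuous φ) {u v : ℝ} (huv : u < v) :
    (∫ s in u..v, φ s)^2 ≤ (v - u) * ∫ s in u..v, φ s ^ 2 := by
  set m : ℝ := (∫ s in u..v, φ s) / (v - u) with hm
  have hd : 0 < v - u := by linarith
  have h0 : 0 ≤ ∫ s in u..v, (φ s - m)^2 :=
    intervalIntegral.integral_nonneg huv.le fun s _ => sq_nonneg _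
  have h1 : ∫ s in u..v, (φ s - m)^2 = (∫ s in u..v, φ s ^ 2) - 2 * m * (∫ s in u..v, φ s) + m^2 * (v - u) := by
    have e : ∀ s, (φ s - m)^2 = (φ s ^ 2 - 2 * m * φ s) + m^2 := fun s => by ring
    simp_rw [e]
    rw [intervalIntegral.integral_add, intervalIntegral.integral_sub, intervalIntegral.integral_const_mul,
      intervalIntegral.integral_const, smul_eq_mul]
    · ring
    · exact (hφ.pow 2).intervalIntegrable _ _
    · exact (continuous_const.mul hφ).intervalIntegrable _ _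
    · exact ((hφ.pow 2).sub (continuous_const.mul hφ)).intervalIntegrable _ _
    · exact continuous_const.intervalIntegrable _ _
  rw [h1] at h0
  have h2 : (∫ s in u..v, φ s) = m * (v - u) := by
    rw [hm]
    field_simp
  rw [h2] at h0 ⊢
  nlinarith

lemma sob {f f' : ℝ → ℂ} (hf : ∀ t, HasDerivAt f (f' t) t) (hc : Continuous f') {u v t : ℝ}
    (huv : u < v) (ht : t ∈ Set.Icc u v) :
    ‖f t‖^2 ≤ 2 / (v - u) * (∫ s in u..v, ‖f s‖^2) + 2 * (v - u) * ∫ s in u..v, ‖f' s‖^2 := by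
  have hd : 0 < v - u := by linarith
  have hcf : Continuous f := continuous_iff_continuousAt.mpr fun t => (hf t).continuousAt
  set D : ℝ := ∫ s in u..v, ‖f' s‖ with hD
  have hD0 : 0 ≤ D := intervalIntegral.integral_nonneg huv.le fun s _ => norm_nonneg _
  have h1 : ∀ s ∈ Set.Icc u v, ‖f t‖^2 ≤ 2 * ‖f s‖^2 + 2 * D^2 := by
    intro s hs
    have e : ∫ x in s..t, f' x = f t - f s :=
      intervalIntegral.integral_eq_sub_of_hasDerivAt (fun x _ => hf x) (hc.intervalIntegrable _ _)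
    have h2 : ‖f t - f s‖ ≤ D := by
      rw [← e, hD]
      refine intervalIntegral.norm_integral_le_abs_integral_norm.trans ?_
      rcases le_total s t with hst | hst
      · rw [abs_of_nonneg (intervalIntegral.integral_nonneg hst fun _ _ => norm_nonneg _)]
        exact intervalIntegral.integral_mono_interval hs.1 hst ht.2
          (Filter.Eventually.of_forall fun _ => norm_nonneg _) (hc.norm.intervalIntegrable _ _)
      · rw [intervalIntegral.integral_symm, abs_neg,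
          abs_of_nonneg (intervalIntegral.integral_nonneg hst fun _ _ => norm_nonneg _)]
        exact intervalIntegral.integral_mono_interval ht.1 hst hs.2
          (Filter.Eventually.of_forall fun _ => norm_nonneg _) (hc.norm.intervalIntegrable _ _)
    have h3 : ‖f t‖ ≤ ‖f s‖ + D := by
      have := norm_add_le (f s) (f t - f s)
      rw [add_sub_cancel] at this
      linarith
    have h4 : ‖f t‖^2 ≤ (‖f s‖ + D)^2 := pow_le_pow_left₀ (norm_nonneg _) h3 2
    nlinarith [sq_nonneg (‖f s‖ - D)]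
  have h2 : ∫ s in u..v, ‖f t‖^2 ≤ ∫ s in u..v, (2 * ‖f s‖^2 + 2 * D^2) := by
    apply intervalIntegral.integral_mono_on huv.le
    · exact continuous_const.intervalIntegrable _ _
    · exact ((continuous_const.mul (hcf.norm.pow 2)).add continuous_const).intervalIntegrable _ _
    · exact h1
  rw [intervalIntegral.integral_const, smul_eq_mul, intervalIntegral.integral_add,
    intervalIntegral.integral_const_mul, intervalIntegral.integral_const, smul_eq_mul] at h2
  · have h3 := sq_int_le hc.norm huv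
    rw [← hD] at h3
    have h4 : ‖f t‖^2 ≤ 2 / (v - u) * (∫ s in u..v, ‖f s‖^2) + 2 * D^2 := by
      have e : 2 / (v - u) * (∫ s in u..v, ‖f s‖^2) + 2 * D^2 =
          (2 * (∫ s in u..v, ‖f s‖^2) + (v - u) * (2 * D^2)) / (v - u) := by
        field_simp
      rw [e, le_div_iff₀ hd]
      linarith
    linarith
  · exact (continuous_const.mul (hcf.norm.pow 2)).intervalIntegrable _ _
  · exact continuous_const.intervalIntegrable _ _

/-- the coefficients of the derivative -/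
noncomputable def al' (α : ℕ → ℂ) (p : ℕ) : ℂ := α p * (-((Real.log p : ℝ) : ℂ) * I)

lemma hasDerivAt_ee (u t : ℝ) : HasDerivAt (ee u) (ee u t * (-(u:ℂ) * I)) t := by
  unfold ee
  have h1 : HasDerivAt (fun t : ℝ => ((-(t * u) : ℝ) : ℂ) * I) ((-(u:ℂ)) * I) t := by
    have h2 : HasDerivAt (fun t : ℝ => -(t * u)) (-u) t := by
      have := (hasDerivAt_id' t).mul_const (-u)
      rw [one_mul] at this
      refine this.congr_of_eventuallyEq (Filter.Eventually.of_forall fun x => ?_)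
      ring
    have h3 := h2.ofReal_comp.mul_const I
    push_cast at h3 ⊢
    exact h3
  exact h1.cexp

lemma hasDerivAt_SS (α : ℕ → ℂ) (a l : ℕ) (t : ℝ) :
    HasDerivAt (SS α a l) (SS (al' α) a l t) t := by
  unfold SS cs
  apply HasDerivAt.fun_sum
  intro i _
  apply HasDerivAt.fun_sum
  intro p _
  have h := (hasDerivAt_ee (Real.log p) t).const_mul (α p * (p:ℂ)⁻¹)
  refine h.congr_deriv ?_
  unfold al'
  ring

/-- the functional of a small interval -/
noncomputable def Phi (α : ℕ → ℂ) (u v : ℝ) (a l : ℕ) : ℝ :=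
  2 / (v - u) * (∫ s in u..v, ‖SS α a l s‖^2) + 2 * (v - u) * ∫ s in u..v, ‖SS (al' α) a l s‖^2

lemma SS_le_Phi (α : ℕ → ℂ) {u v t : ℝ} (huv : u < v) (ht : t ∈ Set.Icc u v) (a l : ℕ) :
    ‖SS α a l t‖^2 ≤ Phi α u v a l :=
  sob (hasDerivAt_SS α a l) (continuous_SS _ a l) huv ht

/-- the grid -/
noncomputable def gr (T M : ℕ) (k : ℕ) : ℝ := -(T:ℝ) + (k:ℝ) / M

lemma gr_succ (T : ℕ) {M : ℕ} (k : ℕ) : gr T M (k+1) - gr T M k = 1 / M := by
  unfold gr
  push_cast
  ring

lemma gr_mem {T M : ℕ} (hM : 1 ≤ M) {t : ℝ} (ht : |t| < T) :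
    ∃ k, k < 2 * T * M ∧ t ∈ Set.Icc (gr T M k) (gr T M (k+1)) := by
  have hM' : (0:ℝ) < M := by exact_mod_cast hM
  rw [abs_lt] at ht
  have h0 : 0 ≤ (t + T) * M := by
    apply mul_nonneg _ hM'.le
    linarith
  refine ⟨⌊(t + T) * M⌋₊, ?_, ?_, ?_⟩
  · rw [Nat.floor_lt h0]
    push_cast
    nlinarith
  · have h1 := Nat.floor_le h0
    unfold gr
    have h2 : (⌊(t + T) * M⌋₊ : ℝ) / M ≤ t + T := by
      rw [div_le_iff₀ hM']
      exact h1
    linarith
  · have h1 := Nat.lt_floor_add_one ((t + T) * (M:ℝ))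
    unfold gr
    have h2 : t + T ≤ ((⌊(t + T) * M⌋₊ + 1 : ℕ) : ℝ) / M := by
      rw [le_div_iff₀ hM']
      push_cast
      exact h1.le
    linarith

/-- the sum of the functionals over the grid -/
lemma sum_Phi (α : ℕ → ℂ) {b : ℝ} (hb : 0 ≤ b) (hα : ∀ p, ‖α p‖ ≤ b) (T j a l : ℕ)
    (ha : 2^j ≤ a) (hal : a + l ≤ 2^(j+1)) :
    ∑ k ∈ range (2 * T * 2^j), Phi α (gr T (2^j) k) (gr T (2^j) (k+1)) a l ≤
      720 * (6 + 4 * T) * b^2 * (j+1) / 2^j * l := by
  have e2 : 2^(j+1) = 2^j + 2^j := by ring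
  have hM : 1 ≤ 2^j := Nat.one_le_two_pow
  have hM' : (0:ℝ) < 2^j := by positivity
  unfold Phi
  simp_rw [gr_succ]
  rw [sum_add_distrib, ← mul_sum, ← mul_sum]
  have hadj : ∀ β : ℕ → ℂ, ∑ k ∈ range (2 * T * 2^j), ∫ s in gr T (2^j) k..gr T (2^j) (k+1), ‖SS β a l s‖^2 =
      ∫ s in gr T (2^j) 0..gr T (2^j) (2 * T * 2^j), ‖SS β a l s‖^2 := fun β =>
    intervalIntegral.sum_integral_adjacent_intervals (f := fun s => ‖SS β a l s‖^2)
      (fun k _ => ((continuous_SS β a l).norm.pow 2).intervalIntegrable _ _)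
  rw [hadj, hadj]
  have g0 : gr T (2^j) 0 = -(T:ℝ) := by
    unfold gr
    simp
  have g1 : gr T (2^j) (2 * T * 2^j) = (T:ℝ) := by
    unfold gr
    push_cast
    field_simp
    ring
  rw [g0, g1]
  have hT : (0:ℝ) ≤ T := Nat.cast_nonneg T
  have m1 := mean_value α hT hM ha (show l ≤ 2^j by omega) (fun i _ p _ => hα p) hb
  have m2 := mean_value (al' α) (B := 2 * 2^j * b) hT hM ha (show l ≤ 2^j by omega) (by
    intro i hi p hp
    unfold al'
    rw [norm_mul, norm_mul, norm_neg, Complex.norm_I, mul_one, Complex.norm_real, Real.norm_eq_abs,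
      abs_of_nonneg (Real.log_natCast_nonneg p)]
    obtain ⟨h1, h2⟩ := cell_log hp
    have h3 : a + i + 1 ≤ 2 * 2^j := by omega
    have h4 : ((a + i : ℕ) : ℝ) + 1 ≤ 2 * 2^j := by exact_mod_cast h3
    calc ‖α p‖ * Real.log p ≤ b * (2 * 2^j) := by
          apply mul_le_mul (hα p) (by linarith) (Real.log_natCast_nonneg p) hb
      _ = 2 * 2^j * b := by ring) (by positivity)
  push_cast at m1 m2 ⊢
  have e3 : (2 * (2:ℝ)^j * b / 2^j)^2 = 4 * b^2 := by
    field_simp
    ring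
  rw [e3] at m2
  calc _ ≤ 2 / (1 / (2:ℝ)^j) * (72 * (6 + 4 * T) * (b / 2^j)^2 * (j + 1) * l) +
        2 * (1 / (2:ℝ)^j) * (72 * (6 + 4 * T) * (4 * b^2) * (j + 1) * l) := by
        gcongr
    _ = 720 * (6 + 4 * T) * b^2 * (j+1) / 2^j * l := by
        field_simp
        ring

/-- the set of large values is covered by few small intervals -/
theorem cover (α : ℕ → ℂ) {b : ℝ} (hb : 0 ≤ b) (hα : ∀ p, ‖α p‖ ≤ b) (T j : ℕ) {ε : ℝ} (hε : 0 < ε) :
    ∃ S : Finset ℝ, (S.card : ℝ) ≤ 720 * (6 + 4 * T) * b^2 * (j+1)^3 / ε^2 ∧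
      ∀ t : ℝ, |t| < T → (∃ n, n ≤ 2^j ∧ ε < ‖SS α (2^j) n t‖) → ∃ s ∈ S, |t - s| ≤ ((2:ℝ)^j)⁻¹ := by
  classical
  have hM : 1 ≤ 2^j := Nat.one_le_two_pow
  have hM' : (0:ℝ) < 2^j := by positivity
  set g : ℕ → ℕ → ℕ → ℝ := fun k => Phi α (gr T (2^j) k) (gr T (2^j) (k+1)) with hg
  set θ : ℝ := ε^2 / (j+1) with hθ
  have hj0 : (0:ℝ) < (j:ℝ) + 1 := by positivity
  have hθ0 : 0 < θ := by positivity
  set Bk : Finset ℕ := (range (2 * T * 2^j)).filter (fun k => θ < Q (g k) j (2^j)) with hBk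
  have hgr : ∀ k, gr T (2^j) k < gr T (2^j) (k+1) := by
    intro k
    have h1 := gr_succ T (M := 2^j) k
    have h2 : (0:ℝ) < 1 / ((2^j : ℕ) : ℝ) := by positivity
    linarith
  have hg0 : ∀ k a l, 0 ≤ g k a l := by
    intro k a l
    have := SS_le_Phi α (hgr k) (Set.left_mem_Icc.mpr (hgr k).le) a l
    exact le_trans (sq_nonneg _) this
  have hsum : ∑ k ∈ range (2 * T * 2^j), Q (g k) j (2^j) ≤ 720 * (6 + 4 * T) * b^2 * (j+1)^2 := by
    rw [Q_sum]
    have h1 := Q_le (g := fun a l => ∑ k ∈ range (2 * T * 2^j), g k a l) (A := 2^j) (A' := 2^(j+1))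
      (C := 720 * (6 + 4 * T) * b^2 * (j+1) / 2^j) (by positivity)
      (fun a l ha hal => sum_Phi α hb hα T j a l ha hal) j (2^j) le_rfl (by
        have e2 : 2^(j+1) = 2^j + 2^j := by ring
        omega)
    refine h1.trans (le_of_eq ?_)
    field_simp
  have hcard : (Bk.card : ℝ) * θ ≤ 720 * (6 + 4 * T) * b^2 * (j+1)^2 := by
    refine le_trans ?_ hsum
    calc (Bk.card : ℝ) * θ = ∑ k ∈ Bk, θ := by rw [sum_const, nsmul_eq_mul]
      _ ≤ ∑ k ∈ Bk, Q (g k) j (2^j) := by
          apply sum_le_sum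
          intro k hk
          exact (mem_filter.mp hk).2.le
      _ ≤ ∑ k ∈ range (2 * T * 2^j), Q (g k) j (2^j) := by
          apply sum_le_sum_of_subset_of_nonneg (filter_subset _ _)
          intro k _ _
          exact Q_nonneg (hg0 k) j _
  refine ⟨Bk.image (gr T (2^j)), ?_, ?_⟩
  · have h1 : ((Bk.image (gr T (2^j))).card : ℝ) ≤ Bk.card := by exact_mod_cast card_image_le
    refine h1.trans ?_
    rw [le_div_iff₀ (by positivity)]
    have h2 : (Bk.card : ℝ) * ε^2 = (Bk.card : ℝ) * θ * (j+1) := by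
      rw [hθ]
      field_simp
    rw [h2]
    calc (Bk.card : ℝ) * θ * (j+1) ≤ 720 * (6 + 4 * T) * b^2 * (j+1)^2 * (j+1) := by
          apply mul_le_mul_of_nonneg_right hcard hj0.le
      _ = 720 * (6 + 4 * T) * b^2 * (j+1)^3 := by ring
  · rintro t ht ⟨n, hn, hnt⟩
    obtain ⟨k, hk, htk⟩ := gr_mem hM ht
    refine ⟨gr T (2^j) k, mem_image_of_mem _ ?_, ?_⟩
    · rw [hBk, mem_filter, mem_range]
      refine ⟨hk, ?_⟩
      have h1 := rm (fun i => cs α i t) j (2^j) n hn
      have h2 : Q (fun a l => ‖∑ i ∈ range l, cs α (a + i) t‖^2) j (2^j) ≤ Q (g k) j (2^j) :=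
        Q_mono (fun a l => SS_le_Phi α (hgr k) htk a l) j (2^j)
      have h3 : ε^2 < ‖SS α (2^j) n t‖^2 := pow_lt_pow_left₀ hnt hε.le (by norm_num)
      have h4 : ‖SS α (2^j) n t‖^2 ≤ (j+1) * Q (g k) j (2^j) := by
        refine le_trans h1 ?_
        exact mul_le_mul_of_nonneg_left h2 hj0.le
      rw [hθ, div_lt_iff₀ hj0]
      linarith
    · have h1 := gr_succ T (M := 2^j) k
      have h2 := htk.1
      have h3 := htk.2
      push_cast at h1
      rw [one_div] at h1
      rw [abs_le]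
      constructor <;> linarith
end Pool.ER
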