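import Mathlib
import Pool.Agent.H48.ER.Sob
import Pool.Agent.H48.ER.Haus

/-!
The exceptional set of the rate of convergence, for one sequence.
-/

open Finset Complex MeasureTheory Filter Topology

namespace Pool.ER

/-- the admissible size of the partial sums in the block `j` -/
noncomputable def ep (γ : ℝ) (j : ℕ) : ℝ := ((2:ℝ)^j)^(-γ) / ((j:ℝ)+1)^2

lemma ep_pos (γ : ℝ) (j : ℕ) : 0 < ep γ j := by
  unfold ep
  positivity

theorem core (α : ℕ → ℂ) {b : ℝ} (hb : 0 ≤ b) (hα : ∀ p, ‖α p‖ ≤ b) {γ : ℝ} (h0 : 0 ≤ γ) :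
    ∃ Z : Set ℝ, dimH Z ≤ ENNReal.ofReal (2 * γ) ∧
      ∀ t ∉ Z, ∃ j0, ∀ j, j0 ≤ j → ∀ n, n ≤ 2^j → ‖SS α (2^j) n t‖ ≤ ep γ j := by
  refine ⟨⋃ T : ℕ, {t : ℝ | |t| < T ∧ ∀ m : ℕ, ∃ k, ∃ n, n ≤ 2^(k+m) ∧ ep γ (k+m) < ‖SS α (2^(k+m)) n t‖},
    ?_, ?_⟩
  · rw [dimH_iUnion]
    apply iSup_le
    intro T
    choose S hS1 hS2 using fun j : ℕ => cover α hb hα T j (ep_pos γ j)
    apply dimH_limsup_le (2 * γ) (by positivity) S (fun j => ((2:ℝ)^j)⁻¹) (fun j => by positivity)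
    · intro a c hac
      simp only
      apply inv_anti₀ (by positivity)
      exact pow_le_pow_right₀ (by norm_num) hac
    · have h1 : Tendsto (fun j : ℕ => ((2:ℝ)⁻¹)^j) atTop (𝓝 0) :=
        tendsto_pow_atTop_nhds_zero_of_lt_one (by norm_num) (by norm_num)
      refine h1.congr fun j => ?_
      rw [inv_pow]
    · rintro m x ⟨hx1, hx2⟩
      obtain ⟨k, n, hn, hkn⟩ := hx2 m
      obtain ⟨s, hs, hxs⟩ := hS2 (k+m) x hx1 ⟨n, hn, hkn⟩
      exact ⟨k, s, hs, hxs⟩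
    · intro δ hδ
      have hδ0 : 0 < δ := lt_of_le_of_lt (by positivity) hδ
      set q : ℝ := (2:ℝ)^(2 * γ - δ) with hq
      have hq0 : 0 < q := by positivity
      have hq1 : q < 1 := Real.rpow_lt_one_of_one_lt_of_neg (by norm_num) (by linarith)
      set Kc : ℝ := 720 * (6 + 4 * T) * b^2 * (2:ℝ)^δ with hKc
      have hsum : Summable fun k : ℕ => Kc * (((k:ℝ)+1)^7 * q^k) := by
        have h1 := summable_pow_mul_geometric_of_norm_lt_one 7 (r := q)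
          (by rw [Real.norm_of_nonneg hq0.le]; exact hq1)
        have h2 := (summable_nat_add_iff 1).mpr h1
        have h3 := h2.mul_left (Kc / q)
        refine h3.congr ?_
        intro k
        push_cast
        rw [pow_succ q k]
        field_simp
      refine Summable.of_nonneg_of_le (fun k => by positivity) (fun k => ?_) hsum
      have h2k : (0:ℝ) < (2:ℝ)^k := by positivity
      have hk0 : (0:ℝ) < (k:ℝ) + 1 := by positivity
      have e1 : (2 * ((2:ℝ)^k)⁻¹)^δ = (2:ℝ)^δ * ((2:ℝ)^k)^(-δ) := by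
        rw [Real.mul_rpow (by norm_num) (by positivity), Real.inv_rpow (by positivity),
          ← Real.rpow_neg (by positivity)]
      have e2 : (ep γ k)^2 = ((2:ℝ)^k)^(-(2*γ)) / ((k:ℝ)+1)^4 := by
        unfold ep
        rw [div_pow, ← Real.rpow_natCast ((((2:ℝ)^k)^(-γ))), ← Real.rpow_mul h2k.le, ← pow_mul]
        congr 2
        push_cast
        ring
      have e3 : q^k = ((2:ℝ)^k)^(2*γ) * ((2:ℝ)^k)^(-δ) := by
        rw [← Real.rpow_add h2k, hq, ← Real.rpow_natCast, ← Real.rpow_natCast, ← Real.rpow_mul (by norm_num),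
          ← Real.rpow_mul (by norm_num)]
        congr 1
        ring
      rw [e1]
      calc ((S k).card : ℝ) * ((2:ℝ)^δ * ((2:ℝ)^k)^(-δ))
          ≤ (720 * (6 + 4 * T) * b^2 * (k+1)^3 / (ep γ k)^2) * ((2:ℝ)^δ * ((2:ℝ)^k)^(-δ)) :=
            mul_le_mul_of_nonneg_right (hS1 k) (by positivity)
        _ = Kc * (((k:ℝ)+1)^7 * q^k) := by
            rw [e2, e3, hKc, Real.rpow_neg h2k.le (2*γ)]
            field_simp
  · intro t ht
    rw [Set.mem_iUnion] at ht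
    push Not at ht
    obtain ⟨T, hT⟩ := exists_nat_gt |t|
    have h1 := ht T
    simp only [Set.mem_ofPred_eq, not_and, not_forall] at h1
    obtain ⟨m, hm⟩ := h1 hT
    push Not at hm
    refine ⟨m, fun j hj n hn => ?_⟩
    have h2 := hm (j - m) n
    rw [Nat.sub_add_cancel hj] at h2
    exact h2 hn

/-- the full sums over cells -/
noncomputable def DD (α : ℕ → ℂ) (n : ℕ) (t : ℝ) : ℂ := ∑ i ∈ range n, cs α i t

lemma DD_add (α : ℕ → ℂ) (a n : ℕ) (t : ℝ) : DD α (a + n) t = DD α a t + SS α a n t := by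
  unfold DD SS
  exact sum_range_add _ _ _

lemma block_lim {D : ℕ → ℂ} {γ : ℝ} (h0 : 0 ≤ γ) {j0 : ℕ}
    (h : ∀ j, j0 ≤ j → ∀ n, n ≤ 2^j → ‖D (2^j + n) - D (2^j)‖ ≤ ep γ j) :
    ∃ L : ℂ, ∀ j, j0 ≤ j → ∀ n, n ≤ 2^j → ‖D (2^j + n) - L‖ ≤ 3 * ((2:ℝ)^j)^(-γ) / (j+1) := by
  have hstep : ∀ j, j0 ≤ j → ‖D (2^(j+1)) - D (2^j)‖ ≤ ep γ j := by
    intro j hj
    have := h j hj (2^j) le_rfl
    have e : 2^(j+1) = 2^j + 2^j := by ring
    rwa [e]
  have htel : ∀ j, j0 ≤ j → ∀ m, ‖D (2^(j+m)) - D (2^j)‖ ≤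
      ((2:ℝ)^j)^(-γ) * (2 * (1 / ((j:ℝ)+1) - 1 / ((j:ℝ)+m+1))) := by
    intro j hj m
    induction m with
    | zero => simp
    | succ m ih =>
      have h1 := hstep (j+m) (by omega)
      have h2 : ep γ (j+m) ≤ ((2:ℝ)^j)^(-γ) * (2 * (1 / ((j:ℝ)+m+1) - 1 / ((j:ℝ)+m+1+1))) := by
        unfold ep
        have h3 : ((2:ℝ)^(j+m))^(-γ) ≤ ((2:ℝ)^j)^(-γ) := by
          apply Real.rpow_le_rpow_of_nonpos (by positivity) _ (by linarith)
          exact pow_le_pow_right₀ (by norm_num) (by omega)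
        have h4 : 1 / ((j:ℝ)+m+1)^2 ≤ 2 * (1 / ((j:ℝ)+m+1) - 1 / ((j:ℝ)+m+1+1)) := by
          have h5 : (0:ℝ) < (j:ℝ)+m+1 := by positivity
          have h6 : 2 * (1 / ((j:ℝ)+m+1) - 1 / ((j:ℝ)+m+1+1)) - 1 / ((j:ℝ)+m+1)^2 =
              ((j:ℝ)+m) / (((j:ℝ)+m+1)^2 * ((j:ℝ)+m+1+1)) := by
            field_simp
            ring
          have h7 : 0 ≤ ((j:ℝ)+m) / (((j:ℝ)+m+1)^2 * ((j:ℝ)+m+1+1)) := by positivity
          linarith
        push_cast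
        calc ((2:ℝ)^(j+m))^(-γ) / ((j:ℝ)+m+1)^2 = ((2:ℝ)^(j+m))^(-γ) * (1 / ((j:ℝ)+m+1)^2) := by ring
          _ ≤ ((2:ℝ)^j)^(-γ) * (2 * (1 / ((j:ℝ)+m+1) - 1 / ((j:ℝ)+m+1+1))) := by
              apply mul_le_mul h3 h4 (by positivity) (by positivity)
      have h3 : ‖D (2^(j+(m+1))) - D (2^j)‖ ≤ ‖D (2^(j+m+1)) - D (2^(j+m))‖ + ‖D (2^(j+m)) - D (2^j)‖ := by
        have := norm_add_le (D (2^(j+m+1)) - D (2^(j+m))) (D (2^(j+m)) - D (2^j))
        rw [sub_add_sub_cancel] at this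
        exact this
      push_cast
      have e : ((2:ℝ)^j)^(-γ) * (2 * (1 / ((j:ℝ)+1) - 1 / ((j:ℝ)+((m:ℝ)+1)+1))) =
          ((2:ℝ)^j)^(-γ) * (2 * (1 / ((j:ℝ)+m+1) - 1 / ((j:ℝ)+m+1+1))) +
          ((2:ℝ)^j)^(-γ) * (2 * (1 / ((j:ℝ)+1) - 1 / ((j:ℝ)+m+1))) := by
        have : (j:ℝ)+((m:ℝ)+1)+1 = (j:ℝ)+m+1+1 := by ring
        rw [this]
        ring
      rw [e]
      linarith
  have hcau : CauchySeq fun k => D (2^(k+j0)) := by
    apply cauchySeq_of_le_tendsto_0' (fun k : ℕ => 2 / ((k:ℝ)+1))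
    · intro n m hnm
      obtain ⟨d, rfl⟩ := Nat.exists_eq_add_of_le hnm
      have h1 := htel (n+j0) (by omega) d
      rw [dist_comm, dist_eq_norm]
      have e : n + d + j0 = n + j0 + d := by ring
      rw [e]
      refine h1.trans ?_
      have h2 : ((2:ℝ)^(n+j0))^(-γ) ≤ 1 := by
        apply Real.rpow_le_one_of_one_le_of_nonpos _ (by linarith)
        exact one_le_pow₀ (by norm_num)
      have h3 : 2 * (1 / (((n+j0:ℕ):ℝ)+1) - 1 / (((n+j0:ℕ):ℝ)+d+1)) ≤ 2 / ((n:ℝ)+1) := by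
        have h4 : 0 ≤ 1 / (((n+j0:ℕ):ℝ)+d+1) := by positivity
        have h5 : 1 / (((n+j0:ℕ):ℝ)+1) ≤ 1 / ((n:ℝ)+1) := by
          apply one_div_le_one_div_of_le (by positivity)
          push_cast
          have : (0:ℝ) ≤ j0 := Nat.cast_nonneg j0
          linarith
        have h6 : 2 / ((n:ℝ)+1) = 2 * (1 / ((n:ℝ)+1)) := by ring
        rw [h6]
        linarith
      have h7 : 0 ≤ 2 * (1 / (((n+j0:ℕ):ℝ)+1) - 1 / (((n+j0:ℕ):ℝ)+d+1)) := by
        have : 1 / (((n+j0:ℕ):ℝ)+d+1) ≤ 1 / (((n+j0:ℕ):ℝ)+1) := by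
          apply one_div_le_one_div_of_le (by positivity)
          have : (0:ℝ) ≤ d := Nat.cast_nonneg d
          linarith
        linarith
      calc _ ≤ 1 * (2 * (1 / (((n+j0:ℕ):ℝ)+1) - 1 / (((n+j0:ℕ):ℝ)+d+1))) :=
            mul_le_mul_of_nonneg_right h2 h7
        _ ≤ _ := by rw [one_mul]; exact h3
    · have h1 : Tendsto (fun k : ℕ => 2 * (1 / ((k:ℝ)+1))) atTop (𝓝 (2 * 0)) :=
        tendsto_one_div_add_atTop_nhds_zero_nat.const_mul 2
      rw [mul_zero] at h1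
      refine h1.congr fun k => ?_
      ring
  obtain ⟨L, hL⟩ := cauchySeq_tendsto_of_complete hcau
  refine ⟨L, fun j hj n hn => ?_⟩
  have hlim : Tendsto (fun m => ‖D (2^(j+m)) - D (2^j)‖) atTop (𝓝 ‖L - D (2^j)‖) := by
    have h1 : Tendsto (fun m => D (2^(j+m))) atTop (𝓝 L) := by
      have h2 : Tendsto (fun m : ℕ => m + (j - j0)) atTop atTop := tendsto_add_atTop_nat _
      refine (hL.comp h2).congr fun m => ?_
      simp only [Function.comp]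
      congr 2
      omega
    exact (h1.sub_const _).norm
  have h1 : ‖L - D (2^j)‖ ≤ 2 * ((2:ℝ)^j)^(-γ) / (j+1) := by
    apply le_of_tendsto' hlim
    intro m
    refine (htel j hj m).trans ?_
    have h2 : 0 ≤ 1 / ((j:ℝ)+m+1) := by positivity
    have h3 : 2 * ((2:ℝ)^j)^(-γ) / (j+1) = ((2:ℝ)^j)^(-γ) * (2 * (1 / ((j:ℝ)+1))) := by ring
    rw [h3]
    apply mul_le_mul_of_nonneg_left _ (by positivity)
    linarith
  have h2 := h j hj n hn
  have h3 : ep γ j ≤ ((2:ℝ)^j)^(-γ) / (j+1) := by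
    unfold ep
    apply div_le_div_of_nonneg_left (by positivity) (by positivity)
    have : (1:ℝ) ≤ (j:ℝ)+1 := by
      have : (0:ℝ) ≤ j := Nat.cast_nonneg j
      linarith
    nlinarith
  have h4 : ‖D (2^j + n) - L‖ ≤ ‖D (2^j + n) - D (2^j)‖ + ‖L - D (2^j)‖ := by
    have := norm_sub_le (D (2^j + n) - D (2^j)) (L - D (2^j))
    rwa [sub_sub_sub_cancel_right] at this
  calc _ ≤ ((2:ℝ)^j)^(-γ) / (j+1) + 2 * ((2:ℝ)^j)^(-γ) / (j+1) := by linarith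
    _ = _ := by ring

end Pool.ER
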