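import Mathlib
import Pool.Agent.H48.ER.Core

/-!
From sums over cells to sums over the primes up to `x`.
-/

open Finset Complex MeasureTheory Filter Topology

namespace Pool.ER

/-- the sum over primes up to `x` -/
noncomputable def AA (α : ℕ → ℂ) (x : ℕ) (t : ℝ) : ℂ :=
  ∑ p ∈ (range (x+1)).filter Nat.Prime, α p * (p:ℂ)⁻¹ * ee (Real.log p) t

lemma AA_sub (α : ℕ → ℂ) {b : ℝ} (hb : 0 ≤ b) (hα : ∀ p, ‖α p‖ ≤ b) (x : ℕ) (t : ℝ)
    (hx : 1 ≤ ⌊Real.log x⌋₊) :
    ‖AA α x t - DD α ⌊Real.log x⌋₊ t‖ ≤ 6 * b / ⌊Real.log x⌋₊ := by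
  set n : ℕ := ⌊Real.log x⌋₊ with hn
  have hx0 : (0:ℝ) < x := by
    rcases Nat.eq_zero_or_pos x with h | h
    · rw [h] at hn
      simp at hn
      omega
    · exact_mod_cast h
  set s : Finset ℕ := (range (x+1)).filter Nat.Prime with hs
  have hmaps : ∀ p ∈ s, ⌊Real.log p⌋₊ ∈ range (n+1) := by
    intro p hp
    rw [hs, mem_filter, mem_range] at hp
    rw [mem_range, hn]
    have hp0 : (0:ℝ) < p := by exact_mod_cast hp.2.pos
    have : Real.log p ≤ Real.log x := by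
      apply Real.log_le_log hp0
      have : p ≤ x := by omega
      exact_mod_cast this
    have := Nat.floor_le_floor this
    omega
  have h1 := sum_fiberwise_of_maps_to hmaps (fun p => α p * (p:ℂ)⁻¹ * ee (Real.log p) t)
  have h2 : AA α x t = ∑ i ∈ range (n+1), ∑ p ∈ s.filter (fun p : ℕ => ⌊Real.log (p:ℝ)⌋₊ = i),
      α p * (p:ℂ)⁻¹ * ee (Real.log p) t := h1.symm
  have h3 : ∀ i ∈ range n, ∑ p ∈ s.filter (fun p : ℕ => ⌊Real.log (p:ℝ)⌋₊ = i),
      α p * (p:ℂ)⁻¹ * ee (Real.log p) t = cs α i t := by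
    intro i hi
    rw [mem_range] at hi
    unfold cs
    apply sum_congr _ (fun _ _ => rfl)
    ext p
    rw [mem_filter, hs, mem_filter, mem_range, mem_cell]
    constructor
    · rintro ⟨⟨h4, h5⟩, h6⟩
      exact ⟨h5, h6⟩
    · rintro ⟨h4, h5⟩
      refine ⟨⟨?_, h4⟩, h5⟩
      obtain ⟨-, h7⟩ := cell_log (mem_cell.mpr ⟨h4, h5⟩)
      have h8 : (n:ℝ) ≤ Real.log x := Nat.floor_le (Real.log_natCast_nonneg x)
      have h9 : (i:ℝ) + 1 ≤ n := by exact_mod_cast hi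
      have h10 : Real.log p < Real.log x := by linarith
      have hp0 : (0:ℝ) < p := by exact_mod_cast h4.pos
      have h11 := (Real.log_lt_log_iff hp0 hx0).mp h10
      have h12 : p < x := by exact_mod_cast h11
      omega
  rw [h2, sum_range_succ, sum_congr rfl h3]
  unfold DD
  rw [add_sub_cancel_left]
  calc ‖∑ p ∈ s.filter (fun p : ℕ => ⌊Real.log (p:ℝ)⌋₊ = n), α p * (p:ℂ)⁻¹ * ee (Real.log p) t‖
      ≤ ∑ p ∈ s.filter (fun p : ℕ => ⌊Real.log (p:ℝ)⌋₊ = n), b * (p:ℝ)⁻¹ := by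
        apply norm_sum_le_of_le
        intro p _
        rw [norm_mul, norm_mul, norm_ee, mul_one, norm_inv, Complex.norm_natCast]
        exact mul_le_mul_of_nonneg_right (hα p) (by positivity)
    _ ≤ ∑ p ∈ cell n, b * (p:ℝ)⁻¹ := by
        apply sum_le_sum_of_subset_of_nonneg
        · intro p hp
          rw [mem_filter, hs, mem_filter] at hp
          exact mem_cell.mpr ⟨hp.1.2, hp.2⟩
        · intro p _ _
          positivity
    _ = b * ∑ p ∈ cell n, (p:ℝ)⁻¹ := by rw [mul_sum]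
    _ ≤ b * (6 / n) := mul_le_mul_of_nonneg_left (cell_inv hx) hb
    _ = 6 * b / n := by ring

/-- convergence with a rate, for one sequence -/
theorem sum_rate (α : ℕ → ℂ) {b : ℝ} (hb : 0 ≤ b) (hα : ∀ p, ‖α p‖ ≤ b) {γ : ℝ} (h0 : 0 ≤ γ)
    (h1 : γ ≤ 1) :
    ∃ Z : Set ℝ, dimH Z ≤ ENNReal.ofReal (2 * γ) ∧
      ∀ t ∉ Z, ∃ L : ℂ, Tendsto (fun x : ℕ => AA α x t) atTop (𝓝 L) ∧
        ∃ C : ℝ, 0 ≤ C ∧ ∀ᶠ x : ℕ in atTop, ‖AA α x t - L‖ ≤ C * (Real.log x)^(-γ) := by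
  obtain ⟨Z, hZ, hZ2⟩ := core α hb hα h0
  refine ⟨Z, hZ, fun t ht => ?_⟩
  obtain ⟨j0, hj0⟩ := hZ2 t ht
  obtain ⟨L, hL⟩ := block_lim (D := fun n => DD α n t) h0 (j0 := j0) (by
    intro j hj n hn
    rw [DD_add, add_sub_cancel_left]
    exact hj0 j hj n hn)
  have hD : ∀ n : ℕ, 2^j0 ≤ n → ‖DD α n t - L‖ ≤ 3 * ((2:ℝ)^(Nat.log 2 n))^(-γ) / ((Nat.log 2 n : ℕ)+1) ∧
      j0 ≤ Nat.log 2 n := by
    intro n hn
    have hn0 : n ≠ 0 := by
      have : 1 ≤ 2^j0 := Nat.one_le_two_pow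
      omega
    have hj : j0 ≤ Nat.log 2 n := Nat.le_log_of_pow_le (by norm_num) hn
    have hle : 2^(Nat.log 2 n) ≤ n := Nat.pow_log_le_self 2 hn0
    have hlt : n < 2^(Nat.log 2 n + 1) := Nat.lt_pow_succ_log_self (by norm_num) n
    obtain ⟨m, hm⟩ := Nat.exists_eq_add_of_le hle
    have e2 : 2^(Nat.log 2 n + 1) = 2^(Nat.log 2 n) + 2^(Nat.log 2 n) := by ring
    have h3 := hL (Nat.log 2 n) hj m (by omega)
    rw [← hm] at h3
    exact ⟨h3, hj⟩
  have hfl : Tendsto (fun x : ℕ => ⌊Real.log x⌋₊) atTop atTop :=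
    tendsto_nat_floor_atTop.comp (Real.tendsto_log_atTop.comp tendsto_natCast_atTop_atTop)
  refine ⟨L, ?_, ?_⟩
  · have hDl : Tendsto (fun n : ℕ => DD α n t) atTop (𝓝 L) := by
      rw [Metric.tendsto_atTop]
      intro ε hε
      obtain ⟨J, hJ⟩ := exists_nat_gt (3 / ε)
      refine ⟨2^(J + j0), fun n hn => ?_⟩
      have hn' : 2^j0 ≤ n := le_trans (Nat.pow_le_pow_right (by norm_num) (by omega)) hn
      obtain ⟨h3, h4⟩ := hD n hn'
      have h5 : J + j0 ≤ Nat.log 2 n := Nat.le_log_of_pow_le (by norm_num) hn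
      rw [dist_eq_norm]
      refine lt_of_le_of_lt h3 ?_
      have h6 : ((2:ℝ)^(Nat.log 2 n))^(-γ) ≤ 1 := by
        apply Real.rpow_le_one_of_one_le_of_nonpos _ (by linarith)
        exact one_le_pow₀ (by norm_num)
      have h7 : (J:ℝ) ≤ (Nat.log 2 n : ℕ) := by
        have : J ≤ Nat.log 2 n := by omega
        exact_mod_cast this
      rw [div_lt_iff₀ (by positivity)]
      have h8 : 3 < ε * J := by
        rw [div_lt_iff₀ hε] at hJ
        linarith
      nlinarith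
    have h3 : Tendsto (fun x : ℕ => AA α x t - DD α ⌊Real.log x⌋₊ t) atTop (𝓝 0) := by
      have h4 : Tendsto (fun x : ℕ => 6 * b / ((⌊Real.log x⌋₊ : ℕ) : ℝ)) atTop (𝓝 0) :=
        (tendsto_const_div_atTop_nhds_zero_nat (6 * b)).comp hfl
      apply squeeze_zero_norm' _ h4
      filter_upwards [hfl.eventually_ge_atTop 1] with x hx
      exact AA_sub α hb hα x t hx
    have h4 := h3.add (hDl.comp hfl)
    rw [zero_add] at h4
    refine h4.congr fun x => ?_
    simp only [Function.comp]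
    ring
  · refine ⟨3 * (4:ℝ)^γ + 12 * b, by positivity, ?_⟩
    have hlog : Tendsto (fun x : ℕ => Real.log (x:ℝ)) atTop atTop :=
      Real.tendsto_log_atTop.comp tendsto_natCast_atTop_atTop
    filter_upwards [hfl.eventually_ge_atTop (2^j0), hfl.eventually_ge_atTop 1, hlog.eventually_ge_atTop 2]
      with x hx1 hx2 hx3
    set n : ℕ := ⌊Real.log x⌋₊ with hn
    set y : ℝ := Real.log x with hy
    have hy0 : 0 < y := by linarith
    have hny : y / 2 ≤ n := by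
      have := Nat.lt_floor_add_one y
      rw [← hn] at this
      linarith
    obtain ⟨h3, h4⟩ := hD n hx1
    have h5 : (n:ℝ) < 2 * (2:ℝ)^(Nat.log 2 n) := by
      have hlt : n < 2^(Nat.log 2 n + 1) := Nat.lt_pow_succ_log_self (by norm_num) n
      have : (n:ℝ) < (2:ℝ)^(Nat.log 2 n + 1) := by exact_mod_cast hlt
      rwa [pow_succ, mul_comm] at this
    have h6 : ((2:ℝ)^(Nat.log 2 n))^(-γ) ≤ (4:ℝ)^γ * y^(-γ) := by
      have h7 : ((2:ℝ)^(Nat.log 2 n))^(-γ) ≤ (y/4)^(-γ) := by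
        apply Real.rpow_le_rpow_of_nonpos (by positivity) _ (by linarith)
        linarith
      refine h7.trans (le_of_eq ?_)
      rw [Real.div_rpow hy0.le (by norm_num), Real.rpow_neg (by norm_num : (0:ℝ) ≤ 4)]
      field_simp
    have h7 : ‖DD α n t - L‖ ≤ 3 * ((4:ℝ)^γ * y^(-γ)) := by
      refine h3.trans ?_
      rw [div_le_iff₀ (by positivity)]
      have h8 : (0:ℝ) ≤ (Nat.log 2 n : ℕ) := Nat.cast_nonneg _
      have h9 : 0 ≤ (4:ℝ)^γ * y^(-γ) := by positivity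
      nlinarith
    have h8 := AA_sub α hb hα x t hx2
    rw [← hn] at h8
    have h9 : 6 * b / n ≤ 12 * b * y^(-γ) := by
      have h10 : 6 * b / n ≤ 6 * b / (y/2) :=
        div_le_div_of_nonneg_left (by positivity) (by positivity) hny
      have h11 : y⁻¹ ≤ y^(-γ) := by
        rw [← Real.rpow_neg_one]
        apply Real.rpow_le_rpow_of_exponent_le (by linarith) (by linarith)
      have h12 : 6 * b / (y/2) = 12 * b * y⁻¹ := by
        field_simp
        ring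
      rw [h12] at h10
      exact h10.trans (mul_le_mul_of_nonneg_left h11 (by positivity))
    have h13 : ‖AA α x t - L‖ ≤ ‖AA α x t - DD α n t‖ + ‖DD α n t - L‖ := by
      have := norm_add_le (AA α x t - DD α n t) (DD α n t - L)
      rwa [sub_add_sub_cancel] at this
    calc _ ≤ 12 * b * y^(-γ) + 3 * ((4:ℝ)^γ * y^(-γ)) := by linarith
      _ = _ := by ring

end Pool.ER
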