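import Mathlib
import Pool.Agent.H91.Edge.Dist2
import Pool.Agent.H91.Edge.Final
import Pool.Agent.H48.ER.Sum

/-!
The rate of convergence of Euler products on the edge of absolute convergence.
-/

open Complex Filter Topology

namespace Pool.H48.ER

open Pool.Agent.H89.EdgeBasic (Hyp tr locLog Idx summable_inv_sq)
open Pool.Agent.H91.Edge
open Pool.ER

variable {N i b : ℕ} {P : ℕ → Polynomial ℂ}

lemma ft_ee (t : ℝ) (n : ℕ) :
    ft N i P t n * (n:ℂ)^(-(1 + (0:ℂ))) = ft N i P 0 n * (n:ℂ)⁻¹ * ee (Real.log n) t := by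
  by_cases h : n.Prime ∧ ¬ n ∣ N
  · have hn0 : (n:ℂ) ≠ 0 := by exact_mod_cast h.1.ne_zero
    rw [ft_mul t n 0, mul_assoc]
    congr 1
    have e : -(1 + (0:ℂ) + t * I) = (-1 : ℂ) + (-(t * I)) := by ring
    rw [e, Complex.cpow_add _ _ hn0, Complex.cpow_neg_one]
    congr 1
    rw [Complex.cpow_def_of_ne_zero hn0]
    unfold ee
    congr 1
    rw [← Complex.natCast_log]
    push_cast
    ring
  · rw [ft_zero h, ft_zero h]
    simp

/-- the remaining part of the logarithm -/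
noncomputable def gg (N i : ℕ) (P : ℕ → Polynomial ℂ) (t : ℝ) (n : ℕ) : ℂ :=
  open Classical in
  if n.Prime ∧ ¬ n ∣ N then err P n (1 + (i:ℂ)/2 + t * I) else 0

lemma norm_gg (H : Hyp N i b P) (t : ℝ) (n : ℕ) : ‖gg N i P t n‖ ≤ b * ((n:ℝ)^2)⁻¹ := by
  unfold gg
  split_ifs with h
  · apply norm_err H ⟨n, h⟩
    simp
  · rw [norm_zero]
    positivity

lemma summable_gg (H : Hyp N i b P) (t : ℝ) : Summable (gg N i P t) := by
  have h : Summable (fun n : ℕ => ((n:ℝ)^2)⁻¹) := Real.summable_nat_pow_inv.mpr (by norm_num)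
  exact Summable.of_norm_bounded (h.mul_left (b:ℝ)) (norm_gg H t)

lemma Yf_eq (H : Hyp N i b P) (t : ℝ) (x : ℕ) :
    Yf N i P x t = Complex.exp (AA (ft N i P 0) x t + ∑ n ∈ Finset.range (x+1), gg N i P t n) := by
  have hA : AA (ft N i P 0) x t = ∑ n ∈ Finset.range (x+1), ft N i P t n * (n:ℂ)^(-(1 + (0:ℂ))) := by
    unfold AA
    rw [Finset.sum_filter]
    apply Finset.sum_congr rfl
    intro n _
    split_ifs with h
    · exact (ft_ee t n).symm
    · rw [ft_zero (fun h' => h h'.1), zero_mul]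
  rw [hA, ← Finset.sum_add_distrib, Complex.exp_sum]
  unfold Yf
  rw [Finset.prod_filter]
  apply Finset.prod_congr rfl
  intro n _
  have hre : 1 + (i:ℝ)/2 ≤ (1 + (i:ℂ)/2 + t * I).re := by simp
  split_ifs with h
  · have h4 := ft_mul' (i := i) (P := P) t h 0
    rw [add_zero (1 + (i:ℂ)/2 + t * I)] at h4
    rw [h4, ← exp_locLog' H ⟨n, h⟩ hre]
    congr 1
    unfold gg err
    rw [if_pos h]
    ring
  · rw [ft_zero h]
    unfold gg
    rw [if_neg h]
    simp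

lemma gg_tail (H : Hyp N i b P) (t : ℝ) {x : ℕ} (hx : 1 ≤ x) :
    ‖(∑ n ∈ Finset.range (x+1), gg N i P t n) - ∑' n, gg N i P t n‖ ≤ b / x := by
  have hs := (summable_gg H t).hasSum.tendsto_sum_nat
  have h1 : Tendsto (fun y : ℕ => ‖(∑ n ∈ Finset.range (x+1), gg N i P t n) -
      ∑ n ∈ Finset.range (x + 1 + y), gg N i P t n‖) atTop
      (𝓝 ‖(∑ n ∈ Finset.range (x+1), gg N i P t n) - ∑' n, gg N i P t n‖) := by
    have h2 : Tendsto (fun y : ℕ => ∑ n ∈ Finset.range (x + 1 + y), gg N i P t n) atTop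
        (𝓝 (∑' n, gg N i P t n)) := by
      have h3 : Tendsto (fun y : ℕ => x + 1 + y) atTop atTop :=
        tendsto_atTop_mono (fun y => Nat.le_add_left y (x+1)) tendsto_id
      exact hs.comp h3
    exact (h2.const_sub _).norm
  apply le_of_tendsto' h1
  intro y
  rw [Finset.sum_range_add _ (x+1) y, sub_add_cancel_left, norm_neg]
  have hx' : (0:ℝ) < x := by exact_mod_cast hx
  have h2 : ∑ n ∈ Finset.range y, (((x + 1 + n : ℕ) : ℝ)^2)⁻¹ ≤ (x:ℝ)⁻¹ := by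
    have h3 := sum_Ioc_inv_sq_le_sub (α := ℝ) (k := x) (n := x + y) (by omega) (by omega)
    have h4 : ∑ n ∈ Finset.range y, (((x + 1 + n : ℕ) : ℝ)^2)⁻¹ = ∑ i ∈ Finset.Ioc x (x+y), ((i:ℝ)^2)⁻¹ := by
      have e : Finset.Ioc x (x+y) = Finset.Ico (x+1) (x+y+1) := by
        ext n
        rw [Finset.mem_Ioc, Finset.mem_Ico]
        omega
      rw [e, Finset.sum_Ico_eq_sum_range]
      have e2 : x + y + 1 - (x + 1) = y := by omega
      rw [e2]
    rw [h4]
    have h5 : (0:ℝ) ≤ ((x+y : ℕ) : ℝ)⁻¹ := by positivity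
    linarith
  calc ‖∑ n ∈ Finset.range y, gg N i P t (x + 1 + n)‖ ≤
      ∑ n ∈ Finset.range y, b * (((x + 1 + n : ℕ) : ℝ)^2)⁻¹ :=
        norm_sum_le_of_le _ (fun n _ => norm_gg H t (x + 1 + n))
    _ = b * ∑ n ∈ Finset.range y, (((x + 1 + n : ℕ) : ℝ)^2)⁻¹ := by rw [Finset.mul_sum]
    _ ≤ b * (x:ℝ)⁻¹ := mul_le_mul_of_nonneg_left h2 (Nat.cast_nonneg b)
    _ = b / x := by rw [div_eq_mul_inv]

/-- Convergence of one Euler product on the edge, with a rate, off a set of dimension at most `2γ`. -/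
theorem conv_rate (H : Hyp N i b P) {γ : ℝ} (h0 : 0 ≤ γ) (h1 : γ < 1/2) :
    ∃ Z : Set ℝ, dimH Z ≤ ENNReal.ofReal (2 * γ) ∧ ∀ t : ℝ, t ∉ Z →
      ∃ l : ℂ, l ≠ 0 ∧ Tendsto (fun x : ℕ => Yf N i P x t) atTop (𝓝 l) ∧
      ∃ C : ℝ, ∀ x : ℕ, 2 ≤ x → ‖Yf N i P x t - l‖ ≤ C * Real.log x ^ (-γ) := by
  have hadm := adm_ft H 0
  obtain ⟨Z, hZ, hZ2⟩ := sum_rate (ft N i P 0) hadm.b_nonneg hadm.bd h0 (by linarith)
  refine ⟨Z, hZ, fun t ht => ?_⟩
  obtain ⟨L, hL1, C, hC, hL2⟩ := hZ2 t ht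
  set R : ℂ := ∑' n, gg N i P t n with hR
  have hG : Tendsto (fun x : ℕ => ∑ n ∈ Finset.range (x+1), gg N i P t n) atTop (𝓝 R) :=
    (summable_gg H t).hasSum.tendsto_sum_nat.comp (tendsto_add_atTop_nat 1)
  have hY : Tendsto (fun x : ℕ => Yf N i P x t) atTop (𝓝 (Complex.exp (L + R))) := by
    refine (hL1.add hG).cexp.congr fun x => ?_
    exact (Yf_eq H t x).symm
  refine ⟨Complex.exp (L + R), Complex.exp_ne_zero _, hY, ?_⟩
  have hsmall : ∀ᶠ x : ℕ in atTop, ‖(AA (ft N i P 0) x t + ∑ n ∈ Finset.range (x+1), gg N i P t n) - (L + R)‖ ≤ 1 := by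
    have h2 := ((hL1.add hG).sub_const (L + R)).norm
    rw [sub_self, norm_zero] at h2
    exact h2.eventually_le_const (by norm_num)
  have hev : ∀ᶠ x : ℕ in atTop, ‖Yf N i P x t - Complex.exp (L + R)‖ ≤
      (‖Complex.exp (L + R)‖ * (2 * (C + b))) * Real.log x ^ (-γ) := by
    filter_upwards [hsmall, hL2, eventually_ge_atTop 3] with x hx1 hx2 hx3
    set w : ℂ := (AA (ft N i P 0) x t + ∑ n ∈ Finset.range (x+1), gg N i P t n) - (L + R) with hw
    have e1 : Yf N i P x t - Complex.exp (L + R) = Complex.exp (L + R) * (Complex.exp w - 1) := by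
      rw [Yf_eq H t x, mul_sub, mul_one, ← Complex.exp_add]
      congr 2
      rw [hw]
      ring
    have hx3' : (3:ℝ) ≤ x := by exact_mod_cast hx3
    have hlog : 1 ≤ Real.log x := by
      rw [Real.le_log_iff_exp_le (by linarith)]
      have := Real.exp_one_lt_d9
      linarith
    have hlog2 : Real.log x ≤ x := (Real.log_le_sub_one_of_pos (by linarith)).trans (by linarith)
    have h3 : ‖w‖ ≤ (C + b) * Real.log x ^ (-γ) := by
      have h4 := gg_tail H t (show 1 ≤ x by omega)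
      have h5 : ‖w‖ ≤ ‖AA (ft N i P 0) x t - L‖ +
          ‖(∑ n ∈ Finset.range (x+1), gg N i P t n) - ∑' n, gg N i P t n‖ := by
        have e : w = (AA (ft N i P 0) x t - L) + ((∑ n ∈ Finset.range (x+1), gg N i P t n) - R) := by
          rw [hw]
          ring
        rw [e]
        exact norm_add_le _ _
      have h6 : (b:ℝ) / x ≤ b * Real.log x ^ (-γ) := by
        rw [div_eq_mul_inv]
        apply mul_le_mul_of_nonneg_left _ (Nat.cast_nonneg b)
        calc ((x:ℝ))⁻¹ ≤ (Real.log x)⁻¹ := inv_anti₀ (by linarith) hlog2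
          _ = Real.log x ^ (-1:ℝ) := by rw [Real.rpow_neg_one]
          _ ≤ Real.log x ^ (-γ) := Real.rpow_le_rpow_of_exponent_le hlog (by linarith)
      calc ‖w‖ ≤ C * Real.log x ^ (-γ) + b * Real.log x ^ (-γ) := by linarith
        _ = _ := by ring
    rw [e1, norm_mul]
    have h7 : ‖Complex.exp w - 1‖ ≤ 2 * ‖w‖ := Complex.norm_exp_sub_one_le hx1
    calc ‖Complex.exp (L + R)‖ * ‖Complex.exp w - 1‖ ≤
        ‖Complex.exp (L + R)‖ * (2 * ((C + b) * Real.log x ^ (-γ))) := by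
          apply mul_le_mul_of_nonneg_left _ (norm_nonneg _)
          linarith
      _ = _ := by ring
  obtain ⟨x0, hx0⟩ := eventually_atTop.mp hev
  set C1 : ℝ := ‖Complex.exp (L + R)‖ * (2 * (C + b)) with hC1
  have hC10 : 0 ≤ C1 := by positivity
  refine ⟨C1 + ∑ x ∈ Finset.range x0, ‖Yf N i P x t - Complex.exp (L + R)‖ * Real.log x ^ γ, ?_⟩
  intro x hx
  have hlp : 0 < Real.log x := Real.log_pos (by exact_mod_cast hx)
  have hnn : ∀ y : ℕ, 0 ≤ ‖Yf N i P y t - Complex.exp (L + R)‖ * Real.log y ^ γ := fun y =>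
    mul_nonneg (norm_nonneg _) (Real.rpow_nonneg (Real.log_natCast_nonneg y) _)
  rcases le_or_gt x0 x with h | h
  · refine (hx0 x h).trans ?_
    apply mul_le_mul_of_nonneg_right _ (Real.rpow_nonneg hlp.le _)
    have := Finset.sum_nonneg (s := Finset.range x0) (fun y _ => hnn y)
    linarith
  · have h2 := Finset.single_le_sum (f := fun y : ℕ => ‖Yf N i P y t - Complex.exp (L + R)‖ * Real.log y ^ γ)
      (fun y _ => hnn y) (Finset.mem_range.mpr h)
    have h3 : ‖Yf N i P x t - Complex.exp (L + R)‖ =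
        (‖Yf N i P x t - Complex.exp (L + R)‖ * Real.log x ^ γ) * Real.log x ^ (-γ) := by
      rw [mul_assoc, ← Real.rpow_add hlp, add_neg_cancel, Real.rpow_zero, mul_one]
    rw [h3]
    apply mul_le_mul_of_nonneg_right _ (Real.rpow_nonneg hlp.le _)
    linarith

/-- the form used for families -/
theorem rateP (H : Hyp N i b P) {γ : ℝ} (h0 : 0 ≤ γ) (h1 : γ < 1/2) :
    ∃ Z : Set ℝ, dimH Z ≤ ENNReal.ofReal (2 * γ) ∧ ∀ t : ℝ, t ∉ Z → ∀ l : ℂ, l ≠ 0 →
      Tendsto (fun x : ℕ => Yf N i P x t) atTop (𝓝 l) →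
        ∃ C : ℝ, ∀ x : ℕ, 2 ≤ x → ‖Yf N i P x t - l‖ ≤ C * Real.log x ^ (-γ) := by
  obtain ⟨Z, hZ, hZ2⟩ := conv_rate H h0 h1
  refine ⟨Z, hZ, fun t ht l _ hl => ?_⟩
  obtain ⟨l', _, hl', hC⟩ := hZ2 t ht
  rw [tendsto_nhds_unique hl hl']
  exact hC

/-- the strict form: off a set of dimension at most `2γ` the rate is better than the exponent `γ` -/
theorem rateS (H : Hyp N i b P) {γ : ℝ} (h0 : 0 ≤ γ) (h1 : γ < 1/2) :
    ∃ Z : Set ℝ, dimH Z ≤ ENNReal.ofReal (2 * γ) ∧ ∀ t : ℝ, t ∉ Z → ∀ l : ℂ, l ≠ 0 →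
      Tendsto (fun x : ℕ => Yf N i P x t) atTop (𝓝 l) →
        ∃ γ' : ℝ, γ < γ' ∧ ∃ C : ℝ, ∀ x : ℕ, 2 ≤ x → ‖Yf N i P x t - l‖ ≤ C * Real.log x ^ (-γ') := by
  set g : ℕ → ℝ := fun m => γ + (1/2 - γ) * (1 / ((m:ℝ) + 1)) / 2 with hg
  have hlt : ∀ m, γ < g m := by
    intro m
    have : 0 < (1/2 - γ) * (1 / ((m:ℝ) + 1)) / 2 := by
      have : 0 < 1/2 - γ := by linarith
      positivity
    simp only [hg]
    linarith
  have hlt2 : ∀ m, g m < 1/2 := by
    intro m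
    have h2 : 1 / ((m:ℝ) + 1) ≤ 1 := by
      rw [div_le_one (by positivity)]
      have : (0:ℝ) ≤ m := Nat.cast_nonneg m
      linarith
    have h3 : (1/2 - γ) * (1 / ((m:ℝ) + 1)) ≤ (1/2 - γ) * 1 :=
      mul_le_mul_of_nonneg_left h2 (by linarith)
    simp only [hg]
    linarith
  choose Z hZ hZ2 using fun m => rateP H (h0.trans (hlt m).le) (hlt2 m)
  refine ⟨⋂ m, Z m, ?_, ?_⟩
  · have hlim : Tendsto (fun m => ENNReal.ofReal (2 * g m)) atTop (𝓝 (ENNReal.ofReal (2 * γ))) := by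
      apply ENNReal.tendsto_ofReal
      apply Tendsto.const_mul
      have h2 : Tendsto (fun m : ℕ => γ + (1/2 - γ) * (1 / ((m:ℝ) + 1)) / 2) atTop
          (𝓝 (γ + (1/2 - γ) * 0 / 2)) :=
        ((tendsto_one_div_add_atTop_nhds_zero_nat.const_mul _).div_const 2).const_add γ
      rw [mul_zero, zero_div, add_zero] at h2
      exact h2
    apply ge_of_tendsto' hlim
    intro m
    exact (dimH_mono (Set.iInter_subset _ m)).trans (hZ m)
  · intro t ht l hl0 hl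
    rw [Set.mem_iInter, not_forall] at ht
    obtain ⟨m, hm⟩ := ht
    exact ⟨g m, hlt m, hZ2 m t hm l hl0 hl⟩

end Pool.H48.ER
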